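import Mathlib

/-!
Covering numbers and the Hausdorff dimension of sets without clusters.
-/

set_option autoImplicit false

open MeasureTheory MeasureTheory.Measure Filter Topology Set
open scoped ENNReal NNReal

namespace Pool.Agent.Helper26K1.WD

/-- the set `A` contains no `m` points with all distances between `τ` and `K τ` -/
def NoCluster (A : Set UnitAddCircle) (m : ℕ) (K τ : ℝ) : Prop :=
  ∀ x : Fin m → UnitAddCircle, (∀ i, x i ∈ A) →
    (∀ i j, i ≠ j → τ ≤ ‖x i - x j‖ ∧ ‖x i - x j‖ ≤ K * τ) → False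

lemma cover_step {A : Set UnitAddCircle} {m : ℕ} (hm : 1 ≤ m) {K τ : ℝ} (hτ : 0 < τ)
    (hA : NoCluster A m K τ) (y : UnitAddCircle) {ρ : ℝ} (hρ : 2 * ρ ≤ K * τ) :
    ∃ F : Finset UnitAddCircle, F.card ≤ m - 1 ∧
      ∀ x ∈ A, ‖x - y‖ ≤ ρ → ∃ z ∈ F, ‖x - z‖ ≤ τ := by
  classical
  set P : ℕ → Prop := fun n => ∃ F : Finset UnitAddCircle, F.card = n ∧
    (∀ x ∈ F, x ∈ A ∧ ‖x - y‖ ≤ ρ) ∧ ∀ x ∈ F, ∀ x' ∈ F, x ≠ x' → τ ≤ ‖x - x'‖ with hP
  have h0 : P 0 := ⟨∅, rfl, by simp, by simp⟩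
  have hlt : ∀ n, P n → n < m := by
    rintro n ⟨F, rfl, hF1, hF2⟩
    by_contra hcon
    push Not at hcon
    obtain ⟨G, hGF, hG⟩ := Finset.exists_subset_card_eq hcon
    set e := (G.equivFinOfCardEq hG).symm with he
    refine hA (fun i => (e i : UnitAddCircle)) (fun i => (hF1 _ (hGF (e i).2)).1) ?_
    intro i j hij
    have hne : (e i : UnitAddCircle) ≠ e j := fun h => hij (e.injective (Subtype.ext h))
    refine ⟨hF2 _ (hGF (e i).2) _ (hGF (e j).2) hne, ?_⟩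
    have h1 := (hF1 _ (hGF (e i).2)).2
    have h2 := (hF1 _ (hGF (e j).2)).2
    have e1 : (e i : UnitAddCircle) - e j = ((e i : UnitAddCircle) - y) - ((e j : UnitAddCircle) - y) := by
      abel
    rw [e1]
    exact (norm_sub_le _ _).trans (by linarith)
  set n := Nat.findGreatest P m with hn
  obtain ⟨F, hFc, hF1, hF2⟩ : P n := Nat.findGreatest_spec (P := P) (Nat.zero_le m) h0
  have hnm := hlt n ⟨F, hFc, hF1, hF2⟩
  refine ⟨F, by omega, fun x hx hxy => ?_⟩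
  by_contra hcon
  push Not at hcon
  have hxF : x ∉ F := fun h => by
    have := hcon x h
    rw [sub_self, norm_zero] at this
    linarith
  have h1 : P (n + 1) := by
    refine ⟨insert x F, by rw [Finset.card_insert_of_notMem hxF, hFc], ?_, ?_⟩
    · intro z hz
      rcases Finset.mem_insert.1 hz with h | hz
      · rw [h]; exact ⟨hx, hxy⟩
      · exact hF1 z hz
    · intro z hz z' hz' hne
      rcases Finset.mem_insert.1 hz with h | hz
      · rcases Finset.mem_insert.1 hz' with h' | hz'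
        · exact absurd (h.trans h'.symm) hne
        · rw [h]; exact (hcon z' hz').le
      · rcases Finset.mem_insert.1 hz' with h' | hz'
        · rw [h', norm_sub_rev]; exact (hcon z hz).le
        · exact hF2 z hz z' hz' hne
  have h2 := Nat.le_findGreatest (P := P) (by omega : n + 1 ≤ m) h1
  omega

/-- covering numbers of order `ρ ^ (-s)` -/
def CoverN (A : Set UnitAddCircle) (s : ℝ) : Prop :=
  ∃ C : ℝ, 0 < C ∧ ∀ ρ : ℝ, 0 < ρ → ρ ≤ 1 → ∃ F : Finset UnitAddCircle, (F.card : ℝ) ≤ C * ρ ^ (-s) ∧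
    ∀ x ∈ A, ∃ z ∈ F, ‖x - z‖ ≤ ρ

lemma cover_levels {A : Set UnitAddCircle} {m : ℕ} (hm : 1 ≤ m) {K τ0 : ℝ} (hK : 2 < K)
    (hτ0 : 0 < τ0) (hA : ∀ τ : ℝ, 0 < τ → τ < τ0 → NoCluster A m K τ) :
    ∃ N0 : ℕ, ∀ j : ℕ, ∃ F : Finset UnitAddCircle, F.card ≤ N0 * (m - 1) ^ j ∧
      ∀ x ∈ A, ∃ z ∈ F, ‖x - z‖ ≤ K * τ0 / 4 * (2 / K) ^ j := by
  classical
  have hK0 : 0 < K := by linarith
  have hρ0 : 0 < K * τ0 / 4 := by positivity
  obtain ⟨t, -, htf, ht⟩ := (isCompact_univ (X := UnitAddCircle)).finite_cover_balls hρ0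
  refine ⟨htf.toFinset.card, fun j => ?_⟩
  induction j with
  | zero =>
    refine ⟨htf.toFinset, by simp, fun x _ => ?_⟩
    obtain ⟨z, hz, hxz⟩ := mem_iUnion₂.1 (ht (mem_univ x))
    refine ⟨z, htf.mem_toFinset.2 hz, ?_⟩
    rw [pow_zero, mul_one, ← dist_eq_norm]
    exact (Metric.mem_ball.1 hxz).le
  | succ j ih =>
    obtain ⟨F, hFc, hF⟩ := ih
    set ρ : ℝ := K * τ0 / 4 * (2 / K) ^ j with hρ
    have hρpos : 0 < ρ := by positivity
    set τ : ℝ := 2 * ρ / K with hτ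
    have hτpos : 0 < τ := by positivity
    have hle : (2 / K) ^ j ≤ 1 := pow_le_one₀ (by positivity) (by rw [div_le_one hK0]; exact hK.le)
    have hτlt : τ < τ0 := by
      rw [hτ, div_lt_iff₀ hK0, hρ]
      have h1 : K * τ0 / 4 * (2 / K) ^ j ≤ K * τ0 / 4 * 1 := by gcongr
      nlinarith
    have hstep : ∀ y : UnitAddCircle, ∃ G : Finset UnitAddCircle, G.card ≤ m - 1 ∧
        ∀ x ∈ A, ‖x - y‖ ≤ ρ → ∃ z ∈ G, ‖x - z‖ ≤ τ := fun y =>
      cover_step hm hτpos (hA τ hτpos hτlt) y (by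
        rw [hτ, mul_div_assoc', mul_div_cancel_left₀ _ hK0.ne'])
    choose G hG1 hG2 using hstep
    refine ⟨F.biUnion G, ?_, fun x hx => ?_⟩
    · refine (Finset.card_biUnion_le_card_mul _ _ (m - 1) fun y _ => hG1 y).trans ?_
      rw [pow_succ, ← mul_assoc]
      exact Nat.mul_le_mul_right _ hFc
    · obtain ⟨y, hy, hxy⟩ := hF x hx
      obtain ⟨z, hz, hxz⟩ := hG2 y x hx hxy
      refine ⟨z, Finset.mem_biUnion.2 ⟨y, hy, hz⟩, hxz.trans (le_of_eq ?_)⟩
      rw [hτ, hρ, pow_succ]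
      ring

lemma coverN_of_noCluster {A : Set UnitAddCircle} {m : ℕ} (hm : 1 ≤ m) {K τ0 s : ℝ} (hK : 2 < K)
    (hτ0 : 0 < τ0) (hs : 0 < s) (hms : ((m - 1 : ℕ) : ℝ) ≤ (K / 2) ^ s)
    (hA : ∀ τ : ℝ, 0 < τ → τ < τ0 → NoCluster A m K τ) : CoverN A s := by
  obtain ⟨N0, hN0⟩ := cover_levels hm hK hτ0 hA
  have hK0 : 0 < K := by linarith
  set ρ0 : ℝ := K * τ0 / 4 with hρ0
  have hρ0p : 0 < ρ0 := by positivity
  set b : ℝ := 2 / K with hb
  have hb0 : 0 < b := by positivity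
  have hb1 : b < 1 := by rw [hb, div_lt_one hK0]; exact hK
  refine ⟨(N0 + 1) * (1 + (ρ0 / b) ^ s), by positivity, fun ρ hρ hρ1 => ?_⟩
  -- the first level below `ρ`
  have hex : ∃ j : ℕ, ρ0 * b ^ j ≤ ρ := by
    obtain ⟨j, hj⟩ := exists_pow_lt_of_lt_one (show 0 < ρ / ρ0 by positivity) hb1
    refine ⟨j, ?_⟩
    rw [lt_div_iff₀ hρ0p] at hj
    linarith
  classical
  set j := Nat.find hex with hj
  have hj1 : ρ0 * b ^ j ≤ ρ := Nat.find_spec hex
  obtain ⟨F, hFc, hF⟩ := hN0 j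
  refine ⟨F, ?_, fun x hx => ?_⟩
  · have h1 : ((m - 1 : ℕ) : ℝ) ^ j ≤ (1 + (ρ0 / b) ^ s) * ρ ^ (-s) := by
      rcases Nat.eq_zero_or_pos j with h0 | hpos
      · rw [h0, pow_zero]
        have h2 : 1 ≤ ρ ^ (-s) := Real.one_le_rpow_of_pos_of_le_one_of_nonpos hρ hρ1 (by linarith)
        have h3 : 0 ≤ (ρ0 / b) ^ s := by positivity
        nlinarith
      · have h2 : ρ < ρ0 * b ^ (j - 1) := by
          have := Nat.find_min hex (show j - 1 < Nat.find hex by omega)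
          push Not at this
          exact this
        have h3 : ((m - 1 : ℕ) : ℝ) ^ j ≤ ((K / 2) ^ s) ^ j :=
          pow_le_pow_left₀ (Nat.cast_nonneg _) hms j
        have h4 : ((K / 2) ^ s) ^ j = (b ^ j) ^ (-s) := by
          have e1 : K / 2 = b⁻¹ := by rw [hb, inv_div]
          rw [e1, ← Real.rpow_natCast, ← Real.rpow_natCast, ← Real.rpow_mul (by positivity),
            ← Real.rpow_mul hb0.le, Real.inv_rpow hb0.le, ← Real.rpow_neg hb0.le]
          congr 1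
          ring
        have h5 : b / ρ0 * ρ ≤ b ^ j := by
          have h6 : b ^ j = b * b ^ (j - 1) := by
            rw [← pow_succ']
            congr 1
            omega
          rw [h6, div_mul_eq_mul_div, div_le_iff₀ hρ0p]
          have h7 : b * ρ ≤ b * (ρ0 * b ^ (j - 1)) := by gcongr
          linarith
        have h6 : (b ^ j) ^ (-s) ≤ (b / ρ0 * ρ) ^ (-s) :=
          Real.rpow_le_rpow_of_nonpos (by positivity) h5 (by linarith)
        have h7 : (b / ρ0 * ρ) ^ (-s) = (ρ0 / b) ^ s * ρ ^ (-s) := by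
          rw [Real.mul_rpow (by positivity) hρ.le]
          congr 1
          rw [Real.rpow_neg (by positivity), ← Real.inv_rpow (by positivity), inv_div]
        have h8 : 0 ≤ ρ ^ (-s) := by positivity
        calc ((m - 1 : ℕ) : ℝ) ^ j ≤ (b ^ j) ^ (-s) := by rw [← h4]; exact h3
          _ ≤ (ρ0 / b) ^ s * ρ ^ (-s) := by rw [← h7]; exact h6
          _ ≤ (1 + (ρ0 / b) ^ s) * ρ ^ (-s) := by nlinarith
    have h2 : (F.card : ℝ) ≤ N0 * ((m - 1 : ℕ) : ℝ) ^ j := by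
      have := hFc
      exact_mod_cast this
    calc (F.card : ℝ) ≤ N0 * ((m - 1 : ℕ) : ℝ) ^ j := h2
      _ ≤ (N0 + 1) * ((m - 1 : ℕ) : ℝ) ^ j := by
          have : (0 : ℝ) ≤ ((m - 1 : ℕ) : ℝ) ^ j := by positivity
          nlinarith
      _ ≤ (N0 + 1) * ((1 + (ρ0 / b) ^ s) * ρ ^ (-s)) := by gcongr
      _ = (N0 + 1) * (1 + (ρ0 / b) ^ s) * ρ ^ (-s) := by ring
  · obtain ⟨z, hz, hxz⟩ := hF x hx
    exact ⟨z, hz, hxz.trans hj1⟩

lemma dimH_le_of_coverN {A : Set UnitAddCircle} {s : ℝ≥0} (hs : 0 < s) (h : CoverN A s) :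
    dimH A ≤ s := by
  obtain ⟨C, hC, h⟩ := h
  have hs0 : (0 : ℝ) < s := by exact_mod_cast hs
  apply dimH_le_of_hausdorffMeasure_ne_top
  have hρ : ∀ n : ℕ, (0 : ℝ) < 1 / ((n : ℝ) + 1) := fun n => by positivity
  have hρ1 : ∀ n : ℕ, 1 / ((n : ℝ) + 1) ≤ 1 := fun n => by
    rw [div_le_one (by positivity)]
    have : (0 : ℝ) ≤ n := Nat.cast_nonneg n
    linarith
  choose F hF1 hF2 using fun n : ℕ => h _ (hρ n) (hρ1 n)
  have hr : Tendsto (fun n : ℕ => ENNReal.ofReal (2 * (1 / ((n : ℝ) + 1)))) atTop (𝓝 0) := by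
    rw [← ENNReal.ofReal_zero]
    apply ENNReal.tendsto_ofReal
    have := (tendsto_one_div_add_atTop_nhds_zero_nat (𝕜 := ℝ)).const_mul 2
    simpa using this
  have hdiam : ∀ (n : ℕ) (i : F n), Metric.ediam (Metric.closedBall (i : UnitAddCircle) (1 / ((n : ℝ) + 1))) ≤
      ENNReal.ofReal (2 * (1 / ((n : ℝ) + 1))) := by
    intro n i
    rw [Metric.ediam_le_iff]
    intro y hy z hz
    rw [edist_dist]
    apply ENNReal.ofReal_le_ofReal
    rw [Metric.mem_closedBall] at hy hz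
    have := dist_triangle_right y z (i : UnitAddCircle)
    linarith
  have h1 := Measure.hausdorffMeasure_le_liminf_sum (X := UnitAddCircle) (s : ℝ) A
    (l := atTop) (fun n : ℕ => ENNReal.ofReal (2 * (1 / ((n : ℝ) + 1)))) hr
    (fun (n : ℕ) (i : F n) => Metric.closedBall (i : UnitAddCircle) (1 / ((n : ℝ) + 1)))
    (Eventually.of_forall hdiam) (Eventually.of_forall fun n x hx => by
      obtain ⟨z, hz, hxz⟩ := hF2 n x hx
      exact mem_iUnion.2 ⟨⟨z, hz⟩, by rw [Metric.mem_closedBall, dist_eq_norm]; exact hxz⟩)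
  refine ne_top_of_le_ne_top ?_ h1
  have h2 : ∀ n : ℕ, ∑ i : F n, Metric.ediam (Metric.closedBall (i : UnitAddCircle)
      (1 / ((n : ℝ) + 1))) ^ (s : ℝ) ≤ ENNReal.ofReal (C * 2 ^ (s : ℝ)) := by
    intro n
    calc ∑ i : F n, Metric.ediam (Metric.closedBall (i : UnitAddCircle) (1 / ((n : ℝ) + 1))) ^ (s : ℝ)
        ≤ ∑ _i : F n, ENNReal.ofReal ((2 * (1 / ((n : ℝ) + 1))) ^ (s : ℝ)) := by
          refine Finset.sum_le_sum fun i _ => ?_
          rw [← ENNReal.ofReal_rpow_of_nonneg (by positivity) hs0.le]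
          exact ENNReal.rpow_le_rpow (hdiam n i) hs0.le
      _ = ENNReal.ofReal ((F n).card * (2 * (1 / ((n : ℝ) + 1))) ^ (s : ℝ)) := by
          rw [Finset.sum_const, Finset.card_univ, Fintype.card_coe, nsmul_eq_mul,
            ENNReal.ofReal_mul (Nat.cast_nonneg _), ENNReal.ofReal_natCast]
      _ ≤ ENNReal.ofReal (C * 2 ^ (s : ℝ)) := by
          apply ENNReal.ofReal_le_ofReal
          have h3 := hF1 n
          have h4 : (2 * (1 / ((n : ℝ) + 1))) ^ (s : ℝ) = 2 ^ (s : ℝ) * (1 / ((n : ℝ) + 1)) ^ (s : ℝ) :=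
            Real.mul_rpow (by norm_num) (hρ n).le
          have h5 : (1 / ((n : ℝ) + 1)) ^ (-(s : ℝ)) * (1 / ((n : ℝ) + 1)) ^ (s : ℝ) = 1 := by
            rw [← Real.rpow_add (hρ n)]
            simp
          calc ((F n).card : ℝ) * (2 * (1 / ((n : ℝ) + 1))) ^ (s : ℝ)
              ≤ (C * (1 / ((n : ℝ) + 1)) ^ (-(s : ℝ))) * (2 * (1 / ((n : ℝ) + 1))) ^ (s : ℝ) := by
                gcongr
            _ = C * 2 ^ (s : ℝ) * ((1 / ((n : ℝ) + 1)) ^ (-(s : ℝ)) * (1 / ((n : ℝ) + 1)) ^ (s : ℝ)) := by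
                rw [h4]; ring
            _ = C * 2 ^ (s : ℝ) := by rw [h5, mul_one]
  refine ne_top_of_le_ne_top ENNReal.ofReal_ne_top (b := ENNReal.ofReal (C * 2 ^ (s : ℝ))) ?_
  refine (liminf_le_limsup).trans ?_
  exact limsup_le_of_le (h := Eventually.of_forall h2)

end Pool.Agent.Helper26K1.WD
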