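import Pool.Agent.W764.HL.Gen
import Pool.Agent.Helper26K1.WD.Cover

/-!
Outside a set of dimension zero the orbits are equidistributed in arbitrarily late long windows.
-/

set_option autoImplicit false

open MeasureTheory MeasureTheory.Measure Filter Topology Set
open scoped ENNReal NNReal

namespace Pool.Agent.Helper26K1.WD

open Pool.Agent.W764.HL Pool.Agent.W764.FB Pool.Agent.W764.SH

/-- the points whose orbit is not `ε`-equidistributed in any window of ratio `H` beyond `X0` -/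
def exc (p q : ℕ) (ε H X0 : ℝ) : Set T :=
  {x | ∀ X : ℝ, X0 ≤ X → (win p q X (H * X)).Nonempty →
    ∃ c : T, ∃ r : ℝ, 0 ≤ r ∧ r ≤ 1 / 2 ∧
      ε * (win p q X (H * X)).card <
        |(vis p q X (H * X) x c r : ℝ) - 2 * r * (win p q X (H * X)).card|}

/-- the set of bad points has no clusters -/
lemma bad_noCluster {p q : ℕ} (hp : 2 ≤ p) (hq : 2 ≤ q) (hpq : Nat.Coprime p q) {m : ℕ}
    (hm : 1 ≤ m) {K : ℝ} (hK : 1 ≤ K) {ε : ℝ} (hε : 0 < ε) : ∃ H0 : ℝ, 1 < H0 ∧ ∀ H : ℝ, H0 ≤ H →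
      ∀ X0 : ℝ, ∃ τ0 : ℝ, 0 < τ0 ∧ ∀ τ : ℝ, 0 < τ → τ < τ0 →
        NoCluster (bad p q (1 - 1 / m) ε H X0) m K τ := by
  obtain ⟨H0, hH0, h⟩ := cluster hp hq hpq m hK hε
  refine ⟨H0, hH0, fun H hH X0 => ?_⟩
  obtain ⟨δ, hδ, h2⟩ := h H hH
  have hmax : 0 < max X0 1 := lt_max_of_lt_right one_pos
  have hmR : (0 : ℝ) < m := by exact_mod_cast hm
  refine ⟨min δ (1 / max X0 1), by positivity, fun τ hτ hττ x hx hxd => ?_⟩
  obtain ⟨hW, h3⟩ := h2 τ hτ (hττ.trans_le (min_le_left _ _))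
  obtain ⟨α, hα1, hα2, hα3⟩ := h3 x hxd
  have hX : X0 ≤ 1 / τ := by
    have h3 : τ ≤ 1 / max X0 1 := (hττ.trans_le (min_le_right _ _)).le
    rw [le_div_iff₀ hmax] at h3
    rw [le_div_iff₀ hτ]
    have h4 : X0 * τ ≤ max X0 1 * τ := by
      gcongr; exact le_max_left _ _
    linarith
  have he : H / τ = H * (1 / τ) := by ring
  rw [he] at hW hα3
  have hWc : (0 : ℝ) < (win p q (1 / τ) (H * (1 / τ))).card := by
    exact_mod_cast hW.card_pos
  -- one of the orbits has a large Lebesgue component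
  obtain ⟨i, hi⟩ : ∃ i, 1 - α i ≤ 1 / m := by
    by_contra hcon
    push Not at hcon
    have h4 : ∑ _i : Fin m, (1 : ℝ) / m < ∑ i, (1 - α i) :=
      Finset.sum_lt_sum_of_nonempty ⟨⟨0, by omega⟩, Finset.mem_univ _⟩ fun i _ => hcon i
    rw [Finset.sum_const, Finset.card_univ, Fintype.card_fin, nsmul_eq_mul,
      mul_one_div_cancel hmR.ne'] at h4
    linarith
  obtain ⟨c, r, hr0, hr, hlt⟩ := hx i _ hX hW
  have h4 := hα3 i c r hr
  have h5 : (2 * r * (1 - 1 / m) - ε) * (win p q (1 / τ) (H * (1 / τ))).card ≤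
      (2 * r * α i - ε) * (win p q (1 / τ) (H * (1 / τ))).card := by
    have h6 : 1 - 1 / (m : ℝ) ≤ α i := by linarith
    gcongr
  have h6 : (vis p q (1 / τ) (H * (1 / τ)) (x i) c r : ℝ) =
      (((win p q (1 / τ) (H * (1 / τ))).filter fun n => ‖n • x i - c‖ ≤ r).card : ℝ) := rfl
  rw [h6] at hlt
  have h7 := h4.trans_lt hlt
  linarith

/-- disjoint arcs -/
lemma vis_add_le {p q : ℕ} {X Y : ℝ} (x c : T) {r r' : ℝ} (h : r + r' < 1 / 2) :
    vis p q X Y x c r + vis p q X Y x (c + ((1 / 2 : ℝ) : T)) r' ≤ (win p q X Y).card := by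
  classical
  unfold vis
  rw [← Finset.card_union_of_disjoint]
  · exact Finset.card_le_card (Finset.union_subset (Finset.filter_subset _ _)
      (Finset.filter_subset _ _))
  · rw [Finset.disjoint_filter]
    intro n _ h1 h2
    have h3 : ((1 / 2 : ℝ) : T) = (n • x - c) - (n • x - (c + ((1 / 2 : ℝ) : T))) := by abel
    have h4 : ‖((1 / 2 : ℝ) : T)‖ = 1 / 2 := by
      have := AddCircle.norm_half_period_eq (p := (1 : ℝ))
      rw [abs_one] at this
      exact this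
    have h5 : ‖((1 / 2 : ℝ) : T)‖ ≤ r + r' := by
      rw [h3]
      exact (norm_sub_le _ _).trans (by linarith)
    linarith

lemma exc_subset_bad {p q : ℕ} {ε H X0 : ℝ} (hε : 0 < ε) {m : ℕ} (hm : 1 ≤ m)
    (hmε : 1 / (m : ℝ) ≤ ε / 4) : exc p q ε H X0 ⊆ bad p q (1 - 1 / m) (ε / 4) H X0 := by
  intro x hx X hX hW
  by_contra hcon
  push Not at hcon
  obtain ⟨c, r, hr0, hr, hlt⟩ := hx X hX hW
  set N : ℝ := ((win p q X (H * X)).card : ℝ) with hN
  have hN0 : 0 < N := by rw [hN]; exact_mod_cast hW.card_pos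
  have hmR : (0 : ℝ) < m := by exact_mod_cast hm
  have hm0 : 0 < 1 / (m : ℝ) := by positivity
  have hm1 : 1 / (m : ℝ) ≤ 1 := by
    rw [div_le_one hmR]; exact_mod_cast hm
  have h1 := hcon c r hr0 hr
  have h2 : 2 * r * (1 / (m : ℝ)) ≤ ε / 4 := by
    have : 2 * r * (1 / (m : ℝ)) ≤ 1 * (1 / (m : ℝ)) := by gcongr; linarith
    linarith
  have hlow : (2 * r - ε / 2) * N ≤ (vis p q X (H * X) x c r : ℝ) := by
    refine le_trans ?_ h1
    have : 2 * r - ε / 2 ≤ 2 * r * (1 - 1 / m) - ε / 4 := by nlinarith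
    gcongr
  have hle : (vis p q X (H * X) x c r : ℝ) ≤ N := by
    rw [hN]
    unfold vis
    exact_mod_cast Finset.card_filter_le _ _
  have hup : (vis p q X (H * X) x c r : ℝ) ≤ (2 * r + ε) * N := by
    by_cases hcase : 1 / 2 < r + ε / 8
    · have : 1 ≤ 2 * r + ε := by linarith
      nlinarith
    · push Not at hcase
      set r' : ℝ := 1 / 2 - r - ε / 8 with hr'
      have hr'0 : 0 ≤ r' := by linarith
      have h3 := hcon (c + ((1 / 2 : ℝ) : T)) r' hr'0 (by linarith)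
      have h4 := vis_add_le (p := p) (q := q) (X := X) (Y := H * X) x c (r := r) (r' := r')
        (by rw [hr']; linarith)
      have h5 : (vis p q X (H * X) x c r : ℝ) + (vis p q X (H * X) x (c + ((1 / 2 : ℝ) : T)) r' : ℝ)
          ≤ N := by rw [hN]; exact_mod_cast h4
      have h6 : 2 * r' * (1 / (m : ℝ)) ≤ ε / 4 := by
        have : 2 * r' * (1 / (m : ℝ)) ≤ 1 * (1 / (m : ℝ)) := by gcongr; linarith
        linarith
      have h7 : (1 - 2 * r - ε) * N ≤ (vis p q X (H * X) x (c + ((1 / 2 : ℝ) : T)) r' : ℝ) := by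
        refine le_trans ?_ h3
        have : 1 - 2 * r - ε ≤ 2 * r' * (1 - 1 / m) - ε / 4 := by rw [hr'] at h6 ⊢; nlinarith
        gcongr
      nlinarith
  rw [lt_abs] at hlt
  rcases hlt with h | h <;> nlinarith

lemma CoverN.mono {A B : Set T} {s : ℝ} (h : CoverN B s) (hAB : A ⊆ B) : CoverN A s := by
  obtain ⟨C, hC, h⟩ := h
  refine ⟨C, hC, fun ρ hρ hρ1 => ?_⟩
  obtain ⟨F, hF1, hF2⟩ := h ρ hρ hρ1
  exact ⟨F, hF1, fun x hx => hF2 x (hAB hx)⟩

/-- **Covering numbers of the exceptional sets.** -/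
theorem exc_cover {p q : ℕ} (hp : 2 ≤ p) (hq : 2 ≤ q) (hpq : Nat.Coprime p q) {ε s : ℝ}
    (hε : 0 < ε) (hs : 0 < s) : ∃ H0 : ℝ, 1 < H0 ∧ ∀ H : ℝ, H0 ≤ H → ∀ X0 : ℝ,
      CoverN (exc p q ε H X0) s := by
  obtain ⟨m, hm⟩ := exists_nat_ge (4 / ε)
  have hm0R : (0 : ℝ) < m := lt_of_lt_of_le (by positivity) hm
  have hm0 : 1 ≤ m := by
    have : 0 < m := by exact_mod_cast hm0R
    exact this
  have hmε : 1 / (m : ℝ) ≤ ε / 4 := by
    rw [div_le_div_iff₀ hm0R (by norm_num)]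
    rw [div_le_iff₀ hε] at hm
    linarith
  set K : ℝ := 2 * ((m : ℝ) ^ (1 / s) + 1) with hK
  have hpos : 0 < (m : ℝ) ^ (1 / s) := by positivity
  have hK2 : 2 < K := by rw [hK]; linarith
  have hms : ((m - 1 : ℕ) : ℝ) ≤ (K / 2) ^ s := by
    have h1 : K / 2 = (m : ℝ) ^ (1 / s) + 1 := by rw [hK]; ring
    rw [h1]
    calc ((m - 1 : ℕ) : ℝ) ≤ (m : ℝ) := by exact_mod_cast Nat.sub_le m 1
      _ = ((m : ℝ) ^ (1 / s)) ^ s := by
          rw [← Real.rpow_mul hm0R.le, one_div_mul_cancel hs.ne', Real.rpow_one]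
      _ ≤ ((m : ℝ) ^ (1 / s) + 1) ^ s :=
          Real.rpow_le_rpow hpos.le (by linarith) hs.le
  obtain ⟨H0, hH0, h⟩ := bad_noCluster hp hq hpq hm0 (by linarith : (1 : ℝ) ≤ K)
    (ε := ε / 4) (by positivity)
  refine ⟨H0, hH0, fun H hH X0 => ?_⟩
  obtain ⟨τ0, hτ0, h2⟩ := h H hH X0
  exact (coverN_of_noCluster hm0 hK2 hτ0 hs hms h2).mono (exc_subset_bad hε hm0 hmε)

/-- the exceptional set -/
def EE : Set T :=
  ⋃ p : ℕ, ⋃ q : ℕ, ⋃ _ : 2 ≤ p ∧ 2 ≤ q ∧ Nat.Coprime p q, ⋃ n : ℕ,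
    ⋂ j : ℕ, ⋃ H : ℕ, ⋃ _ : j ≤ H, ⋃ X0 : ℕ, exc p q (1 / ((n : ℝ) + 1)) H X0

lemma EE_cover {s : ℝ} (hs : 0 < s) : ∃ A : ℕ → Set T, EE ⊆ ⋃ n, A n ∧ ∀ n, CoverN (A n) s := by
  classical
  have h : ∀ t : ℕ × ℕ × ℕ × ℕ × ℕ, ∃ B : Set T, CoverN B s ∧
      ∀ (hpq : 2 ≤ t.1 ∧ 2 ≤ t.2.1 ∧ Nat.Coprime t.1 t.2.1),
        (⌈(exc_cover hpq.1 hpq.2.1 hpq.2.2 (ε := 1 / ((t.2.2.1 : ℝ) + 1)) (by positivity)
          hs).choose⌉₊ ≤ t.2.2.2.1 →
        exc t.1 t.2.1 (1 / ((t.2.2.1 : ℝ) + 1)) t.2.2.2.1 t.2.2.2.2 ⊆ B) := by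
    rintro ⟨p, q, n, H, X0⟩
    by_cases hpq : 2 ≤ p ∧ 2 ≤ q ∧ Nat.Coprime p q
    · by_cases hH : ⌈(exc_cover hpq.1 hpq.2.1 hpq.2.2 (ε := 1 / ((n : ℝ) + 1)) (by positivity)
          hs).choose⌉₊ ≤ H
      · refine ⟨exc p q (1 / ((n : ℝ) + 1)) H X0, ?_, fun _ _ => Subset.rfl⟩
        exact (exc_cover hpq.1 hpq.2.1 hpq.2.2 (ε := 1 / ((n : ℝ) + 1)) (by positivity)
          hs).choose_spec.2 H (Nat.ceil_le.1 hH) X0
      · exact ⟨∅, ⟨1, one_pos, fun ρ hρ _ => ⟨∅, by simp; positivity, by simp⟩⟩,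
          fun _ h => absurd h hH⟩
    · exact ⟨∅, ⟨1, one_pos, fun ρ hρ _ => ⟨∅, by simp; positivity, by simp⟩⟩,
        fun h => absurd h hpq⟩
  choose B hB1 hB2 using h
  obtain ⟨e⟩ : Nonempty (ℕ ≃ ℕ × ℕ × ℕ × ℕ × ℕ) := nonempty_equiv_of_countable
  refine ⟨fun n => B (e n), fun x hx => ?_, fun n => hB1 _⟩
  unfold EE at hx
  simp only [mem_iUnion, mem_iInter] at hx
  obtain ⟨p, q, hpq, n, hx⟩ := hx
  obtain ⟨H, hH, X0, hx⟩ := hx ⌈(exc_cover hpq.1 hpq.2.1 hpq.2.2 (ε := 1 / ((n : ℝ) + 1))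
    (by positivity) hs).choose⌉₊
  refine mem_iUnion.2 ⟨e.symm (p, q, n, H, X0), ?_⟩
  simp only [Equiv.apply_symm_apply]
  exact hB2 (p, q, n, H, X0) hpq hH hx

lemma EE_dim : dimH EE = 0 := by
  refine le_antisymm ?_ zero_le
  refine ENNReal.le_of_forall_pos_le_add fun s hs _ => ?_
  rw [zero_add]
  obtain ⟨A, hA1, hA2⟩ := EE_cover (s := (s : ℝ)) (by exact_mod_cast hs)
  refine (dimH_mono hA1).trans ?_
  rw [dimH_iUnion]
  exact iSup_le fun n => dimH_le_of_coverN hs (hA2 n)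

/-- equidistribution outside the exceptional set -/
theorem equi {p q : ℕ} (hp : 2 ≤ p) (hq : 2 ≤ q) (hpq : Nat.Coprime p q) {x : T} (hx : x ∉ EE)
    {ε : ℝ} (hε : 0 < ε) : ∃ H0 : ℕ, ∀ H : ℕ, H0 ≤ H → ∀ X0 : ℝ, ∃ X : ℝ, X0 ≤ X ∧
      (win p q X (H * X)).Nonempty ∧ ∀ c : T, ∀ r : ℝ, 0 ≤ r → r ≤ 1 / 2 →
        |(vis p q X (H * X) x c r : ℝ) - 2 * r * (win p q X (H * X)).card| ≤
          ε * (win p q X (H * X)).card := by
  obtain ⟨n, hn⟩ := exists_nat_one_div_lt hε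
  unfold EE at hx
  simp only [mem_iUnion, mem_iInter, not_exists, not_forall] at hx
  obtain ⟨j, hj⟩ := hx p q ⟨hp, hq, hpq⟩ n
  refine ⟨j, fun H hH X0 => ?_⟩
  obtain ⟨X1, hX1⟩ := exists_nat_ge X0
  have h1 := hj H hH X1
  unfold exc at h1
  simp only [mem_ofPred_eq, not_forall] at h1
  obtain ⟨X, hX, hW, h1⟩ := h1
  refine ⟨X, hX1.trans hX, hW, fun c r hr0 hr => ?_⟩
  by_contra hcon
  push Not at hcon
  apply h1
  refine ⟨c, r, hr0, hr, lt_of_le_of_lt ?_ hcon⟩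
  gcongr

/-- lower bounds for arcs from genericity -/
lemma arc_lower2 {p q : ℕ} {μ : Measure T} [IsProbabilityMeasure μ] {x : T}
    (hg : WGen p q μ x)
    (hx : ∀ ε : ℝ, 0 < ε → ∃ H0 : ℕ, ∀ H : ℕ, H0 ≤ H →
      ∀ X0 : ℝ, ∃ X : ℝ, X0 ≤ X ∧ (win p q X (H * X)).Nonempty ∧
        ∀ c : T, ∀ r : ℝ, 0 ≤ r → r ≤ 1 / 2 →
          |(vis p q X (H * X) x c r : ℝ) - 2 * r * (win p q X (H * X)).card| ≤
            ε * (win p q X (H * X)).card)
    (c : T) {r : ℝ} (hr0 : 0 ≤ r) (hr : r ≤ 1 / 2) : 2 * r ≤ μ.real (Metric.closedBall c r) := by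
  classical
  refine le_of_forall_pos_le_add fun e he => ?_
  rcases le_or_gt r (e / 4) with h0 | h0
  · have : 0 ≤ μ.real (Metric.closedBall c r) := measureReal_nonneg
    linarith
  set r' : ℝ := r - e / 4 with hr'
  have hr'0 : 0 ≤ r' := by linarith
  set f : T → ℝ := fun y => max 0 (min 1 (1 - (‖y - c‖ - r') / (e / 4))) with hf
  have hfc : Continuous f := by
    rw [hf]
    exact continuous_const.max (continuous_const.min (continuous_const.sub
      (((continuous_id.sub continuous_const).norm.sub continuous_const).div_const _)))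
  have hf0 : ∀ y, 0 ≤ f y := fun y => le_max_left _ _
  have hf1 : ∀ y, f y ≤ 1 := fun y => max_le zero_le_one (min_le_left _ _)
  have hfin : ∀ y, ‖y - c‖ ≤ r' → f y = 1 := by
    intro y hy
    simp only [hf]
    have h1 : (‖y - c‖ - r') / (e / 4) ≤ 0 := div_nonpos_of_nonpos_of_nonneg (by linarith) (by positivity)
    rw [min_eq_left (by linarith), max_eq_right zero_le_one]
  have hfout : ∀ y, y ∉ Metric.closedBall c r → f y = 0 := by
    intro y hy
    rw [Metric.mem_closedBall, dist_eq_norm, not_le] at hy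
    simp only [hf]
    have h1 : 1 ≤ (‖y - c‖ - r') / (e / 4) := by
      rw [le_div_iff₀ (by positivity)]; linarith
    have h2 : min 1 (1 - (‖y - c‖ - r') / (e / 4)) ≤ 0 := (min_le_right _ _).trans (by linarith)
    exact max_eq_left h2
  have hint : ∫ y, f y ∂μ ≤ μ.real (Metric.closedBall c r) := by
    have hm : MeasurableSet (Metric.closedBall c r) := measurableSet_closedBall
    calc ∫ y, f y ∂μ ≤ ∫ y, (Metric.closedBall c r).indicator (fun _ => (1 : ℝ)) y ∂μ := by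
          refine integral_mono (Pool.Agent.H847R3.XpXq.integrable_of_cont hfc μ)
            ((integrable_const 1).indicator hm) fun y => ?_
          by_cases hy : y ∈ Metric.closedBall c r
          · rw [indicator_of_mem hy]; exact hf1 y
          · rw [indicator_of_notMem hy, hfout y hy]
      _ = μ.real (Metric.closedBall c r) := by
          rw [integral_indicator hm, setIntegral_const, smul_eq_mul, mul_one]
  obtain ⟨H1, hH1⟩ := hg f hfc (e / 8) (by positivity)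
  obtain ⟨H2, hH2⟩ := hx (e / 8) (by positivity)
  obtain ⟨H3, hH31, hH32⟩ : ∃ H3, H1 ≤ H3 ∧ H2 ≤ H3 :=
    ⟨max H1 H2, le_max_left _ _, le_max_right _ _⟩
  obtain ⟨X0, hX0⟩ := hH1 H3 hH31
  obtain ⟨X, hX, hne, hv⟩ := hH2 H3 hH32 X0
  have h1 := hX0 X hX
  have h2 := hv c r' hr'0 (by linarith)
  set W := win p q X (H3 * X) with hW
  have hWR : (0 : ℝ) < W.card := by exact_mod_cast hne.card_pos
  have h3 : (vis p q X (H3 * X) x c r' : ℝ) ≤ ∑ n ∈ W, f (n • x) := by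
    unfold vis
    rw [Finset.card_filter]
    push_cast
    refine Finset.sum_le_sum fun n _ => ?_
    split_ifs with hn
    · rw [hfin _ hn]
    · exact hf0 _
  rw [abs_le] at h1 h2
  have h4 : (2 * r' - e / 8) * W.card ≤ (∫ y, f y ∂μ + e / 8) * W.card := by
    linarith [h1.2, h2.1]
  have h5 := le_of_mul_le_mul_right h4 hWR
  linarith

/-- lower bounds for arcs imply that the measure is Lebesgue -/
lemma eq_volume {μ : Measure T} [IsProbabilityMeasure μ]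
    (h : ∀ c : T, ∀ r : ℝ, 0 ≤ r → r ≤ 1 / 2 → 2 * r ≤ μ.real (Metric.closedBall c r)) :
    μ = volume := by
  set v := IsUnifLocDoublingMeasure.vitaliFamily (volume : Measure T) 1 with hv
  have hle : (volume : Measure T) ≤ μ := by
    refine Measure.le_iff'.2 fun s => ?_
    refine v.measure_le_of_frequently_le (ρ := (volume : Measure T)) μ
      AbsolutelyContinuous.rfl s ?_
    intro x _
    have h2 : Tendsto (fun δ : ℝ => Metric.closedBall x δ) (𝓝[>] 0) (v.filterAt x) :=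
      IsUnifLocDoublingMeasure.tendsto_closedBall_filterAt (volume : Measure T) (fun _ => x)
        (fun δ => δ) tendsto_id (by
          filter_upwards [self_mem_nhdsWithin] with δ hδ
          rw [one_mul]
          exact Metric.mem_closedBall_self (le_of_lt hδ))
    refine h2.frequently (Eventually.frequently ?_)
    have h3 : ∀ᶠ δ : ℝ in 𝓝[>] 0, δ < 1 / 2 :=
      nhdsWithin_le_nhds (gt_mem_nhds (by norm_num))
    filter_upwards [self_mem_nhdsWithin, h3] with δ hδ hδ2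
    have hδ0 : 0 < δ := hδ
    rw [AddCircle.volume_closedBall, min_eq_right (by linarith)]
    exact (ENNReal.ofReal_le_iff_le_toReal (measure_ne_top _ _)).2 (h x δ hδ0.le hδ2.le)
  have hu1 : μ univ = 1 := measure_univ
  have hu2 : (volume : Measure T) univ = 1 := UnitAddCircle.measure_univ
  exact (Measure.eq_of_le_of_measure_univ_eq hle (hu2.trans hu1.symm)).symm

/-- generic points -/
theorem generic_mem {p q : ℕ} (hp : 2 ≤ p) (hq : 2 ≤ q) (hpq : Nat.Coprime p q) {μ : Measure T}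
    [IsProbabilityMeasure μ] (hμ : μ ≠ volume) {x : T} (hx : WGen p q μ x) : x ∈ EE := by
  by_contra hcon
  exact hμ (eq_volume fun c r hr0 hr => arc_lower2 hx (fun ε hε => equi hp hq hpq hcon hε) c hr0 hr)

end Pool.Agent.Helper26K1.WD
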